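import Mathlib

namespace Pool.Agent.Results.MP_ac28de_co.AutTree

/-- The letters `1` and `2`. -/
inductive Letter
  | one
  | two
  deriving DecidableEq

open Letter

/-- Words over `{1,2}`. -/
abbrev Word := List Letter

/-- The covering relation `x ⋖ y` of the Young–Fibonacci lattice. -/
def Cov (x y : Word) : Prop :=
  (∃ j v, y = List.replicate j two ++ one :: v ∧ x = List.replicate j two ++ v) ∨
  (∃ j v, y = List.replicate j two ++ two :: v ∧ x = List.replicate j two ++ one :: v)

/-- `IsPath [x_n, …, x_0]`: `∅ = x_0 ⋖ x_1 ⋖ ⋯ ⋖ x_n` is a saturated chain (listed from the top). -/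
inductive IsPath : List Word → Prop
  | root : IsPath [[]]
  | step {x y : Word} {p : List Word} : IsPath (x :: p) → Cov x y → IsPath (y :: x :: p)

/-- The vertices of `T`. -/
abbrev Path := {p : List Word // IsPath p}

/-- The tree `T`: a chain is adjacent to the chain obtained by deleting its top element. -/
def T : SimpleGraph Path where
  Adj p q := p.1 = q.1.tail ∨ q.1 = p.1.tail
  symm := ⟨fun _ _ h => h.symm⟩
  loopless := ⟨fun p h => by
    have h1 : p.1 = p.1.tail := by tauto
    have h2 := congrArg List.length h1
    rw [List.length_tail] at h2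
    have h3 : p.1 ≠ [] := by
      obtain ⟨l, hl⟩ := p
      cases hl <;> simp
    have := List.length_pos_iff.mpr h3
    omega⟩

/-- Exchange of a final `11` with a final `2`. -/
def sw : Word → Word
  | [] => []
  | [two] => [one, one]
  | [one, one] => [two]
  | a :: v => a :: sw v

/-- The words `2^j 1`. -/
def Star (x : Word) : Prop := ∃ j, x = List.replicate j two ++ [one]

/-- The set of chains whose top element is of the form `2^j 1`. -/
def V : Set (List Word) := {p | IsPath p ∧ ∃ x q, p = x :: q ∧ Star x}

open Classical in
/-- The state of a chain: whether its top element gets changed by `sw`. -/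
noncomputable def S (E : Set (List Word)) : List Word → Bool
  | [] => false
  | [_] => false
  | _ :: x :: p => if sw x = x then decide ((x :: p) ∈ E) else S E (x :: p)

/-- The action on chains. -/
noncomputable def act (E : Set (List Word)) : List Word → List Word
  | [] => []
  | y :: p => (if S E (y :: p) then sw y else y) :: act E p

/-! ### Covers -/

/-- list of covers -/
def covers : Word → List Word
  | [] => [[one]]
  | one :: v => [one :: one :: v, two :: v]
  | two :: v => (one :: two :: v) :: (covers v).map (two :: ·)

lemma cov_iff (x y : Word) : Cov x y ↔ y ∈ covers x := by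
  induction x generalizing y with
  | nil =>
    simp only [covers, List.mem_singleton]
    constructor
    · rintro (⟨j, v, rfl, h⟩ | ⟨j, v, rfl, h⟩)
      · have := List.append_eq_nil_iff.mp h.symm
        rw [this.1, this.2]; rfl
      · simp at h
    · rintro rfl
      exact Or.inl ⟨0, [], rfl, rfl⟩
  | cons a w ih =>
    cases a with
    | one =>
      simp only [covers, List.mem_cons, List.not_mem_nil, or_false]
      constructor
      · rintro (⟨j, v, rfl, h⟩ | ⟨j, v, rfl, h⟩)
        · cases j with
          | zero => left; simp at h ⊢; exact h.symm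
          | succ j => simp [List.replicate_succ] at h
        · cases j with
          | zero => right; simp at h ⊢; exact h.symm
          | succ j => simp [List.replicate_succ] at h
      · rintro (rfl | rfl)
        · exact Or.inl ⟨0, one :: w, rfl, rfl⟩
        · exact Or.inr ⟨0, w, rfl, rfl⟩
    | two =>
      simp only [covers, List.mem_cons, List.mem_map]
      constructor
      · rintro (⟨j, v, rfl, h⟩ | ⟨j, v, rfl, h⟩)
        · cases j with
          | zero => left; simp at h ⊢; exact h.symm
          | succ j =>
            right
            simp only [List.replicate_succ, List.cons_append, List.cons.injEq, true_and] at h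
            exact ⟨List.replicate j two ++ one :: v, (ih _).mp (Or.inl ⟨j, v, rfl, h⟩),
              by simp [List.replicate_succ]⟩
        · cases j with
          | zero => simp at h
          | succ j =>
            right
            simp only [List.replicate_succ, List.cons_append, List.cons.injEq, true_and] at h
            exact ⟨List.replicate j two ++ two :: v, (ih _).mp (Or.inr ⟨j, v, rfl, h⟩),
              by simp [List.replicate_succ]⟩
      · rintro (rfl | ⟨y', hy', rfl⟩)
        · exact Or.inl ⟨0, two :: w, rfl, rfl⟩
        · rcases (ih _).mpr hy' with ⟨j, v, rfl, h⟩ | ⟨j, v, rfl, h⟩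
          · exact Or.inl ⟨j + 1, v, by simp [List.replicate_succ], by simp [List.replicate_succ, h]⟩
          · exact Or.inr ⟨j + 1, v, by simp [List.replicate_succ], by simp [List.replicate_succ, h]⟩

lemma covers_ne {x y : Word} (h : y ∈ covers x) : y ≠ [] := by
  cases x with
  | nil => simp [covers] at h; simp [h]
  | cons a w =>
    cases a with
    | one => simp [covers] at h; rcases h with rfl | rfl <;> simp
    | two =>
      simp only [covers, List.mem_cons, List.mem_map] at h
      rcases h with rfl | ⟨y', _, rfl⟩ <;> simp

/-- number of covers -/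
def d (x : Word) : ℕ := (covers x).length

lemma d_nil : d [] = 1 := rfl
lemma d_one (v : Word) : d (one :: v) = 2 := rfl
lemma d_two (v : Word) : d (two :: v) = d v + 1 := by simp [d, covers]

lemma d_pos (x : Word) : 1 ≤ d x := by
  cases x with
  | nil => exact le_rfl
  | cons a w => cases a with
    | one => rw [d_one]; omega
    | two => rw [d_two]; omega

lemma d_two_le {x : Word} (h : x ≠ []) : 2 ≤ d x := by
  cases x with
  | nil => exact absurd rfl h
  | cons a w => cases a with
    | one => rw [d_one]
    | two => rw [d_two]; have := d_pos w; omega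

lemma covers_nodup (x : Word) : (covers x).Nodup := by
  induction x with
  | nil => simp [covers]
  | cons a w ih =>
    cases a with
    | one => simp [covers]
    | two =>
      simp only [covers, List.nodup_cons]
      refine ⟨by simp, ih.map (fun x y h => by simpa using h)⟩

/-! ### The exchange map -/

lemma sw_cons {a : Letter} {v : Word} (hv : v ≠ []) (h : a :: v ≠ [one, one]) :
    sw (a :: v) = a :: sw v := by
  match a, v, hv, h with
  | one, [one], _, h => exact absurd rfl h
  | one, [two], _, _ => rfl
  | two, [one], _, _ => rfl
  | two, [two], _, _ => rfl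
  | one, one :: c :: v, _, _ => rfl
  | one, two :: c :: v, _, _ => rfl
  | two, b :: c :: v, _, _ => rfl

lemma sw_two_cons {v : Word} (hv : v ≠ []) : sw (two :: v) = two :: sw v :=
  sw_cons hv (by simp)

lemma sw_ne {v : Word} (hv : v ≠ []) : sw v ≠ [] := by
  match v, hv with
  | [one], _ => simp [sw]
  | [two], _ => simp [sw]
  | a :: b :: v, _ =>
    by_cases h : a :: b :: v = [one, one]
    · rw [h]; simp [sw]
    · rw [sw_cons (by simp) h]; simp

lemma sw_eq_one {v : Word} (h : sw v = [one]) : v = [one] := by
  match v with
  | [] => simp [sw] at h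
  | [one] => rfl
  | [two] => simp [sw] at h
  | a :: b :: v =>
    exfalso
    by_cases h2 : a :: b :: v = [one, one]
    · rw [h2] at h; simp [sw] at h
    · rw [sw_cons (by simp) h2] at h
      have := sw_ne (v := b :: v) (by simp)
      simp only [List.cons.injEq] at h
      exact this h.2

lemma sw_sw (x : Word) : sw (sw x) = x := by
  induction x with
  | nil => rfl
  | cons a v ih =>
    by_cases hv : v = []
    · subst hv; cases a <;> rfl
    by_cases h : a :: v = [one, one]
    · rw [h]; rfl
    rw [sw_cons hv h, sw_cons (sw_ne hv), ih]
    intro h2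
    simp only [List.cons.injEq] at h2
    exact h (by rw [h2.1, sw_eq_one h2.2])

lemma sw_mem {x y : Word} (h : y ∈ covers x) : sw y ∈ covers (sw x) := by
  induction x generalizing y with
  | nil => simp [covers] at h; subst h; simp [sw, covers]
  | cons a v ih =>
    cases a with
    | one =>
      simp only [covers, List.mem_cons, List.not_mem_nil, or_false] at h
      by_cases hv : v = []
      · subst hv
        rcases h with rfl | rfl <;> simp [sw, covers]
      by_cases hv1 : v = [one]
      · subst hv1
        rcases h with rfl | rfl <;> simp [sw, covers]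
      have h1 : one :: v ≠ [one, one] := by simpa using hv1
      rw [sw_cons hv h1]
      simp only [covers, List.mem_cons, List.not_mem_nil, or_false]
      rcases h with rfl | rfl
      · left
        rw [sw_cons (by simp) (by simp [hv]), sw_cons hv h1]
      · right
        rw [sw_two_cons hv]
    | two =>
      by_cases hv : v = []
      · subst hv
        simp [covers] at h
        rcases h with rfl | rfl <;> simp [sw, covers]
      rw [sw_two_cons hv]
      simp only [covers, List.mem_cons, List.mem_map] at h ⊢
      rcases h with rfl | ⟨y', hy', rfl⟩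
      · left
        rw [sw_cons (by simp) (by simp), sw_two_cons hv]
      · right
        exact ⟨sw y', ih hy', (sw_two_cons (covers_ne hy')).symm⟩

lemma d_sw (x : Word) : d (sw x) = d x := by
  induction x with
  | nil => rfl
  | cons a v ih =>
    by_cases hv : v = []
    · subst hv; cases a <;> rfl
    by_cases h : a :: v = [one, one]
    · rw [h]; rfl
    rw [sw_cons hv h]
    cases a with
    | one => rfl
    | two => rw [d_two, d_two, ih]

lemma star_ne {x : Word} (h : Star x) : x ≠ [] := by
  obtain ⟨j, rfl⟩ := h; simp

lemma star_two {v : Word} (h : Star (two :: v)) : Star v := by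
  obtain ⟨j, hj⟩ := h
  cases j with
  | zero => simp at hj
  | succ j => exact ⟨j, by simpa [List.replicate_succ] using hj⟩

lemma star_cons {v : Word} (h : Star v) : Star (two :: v) := by
  obtain ⟨j, rfl⟩ := h
  exact ⟨j + 1, by simp [List.replicate_succ]⟩

lemma star_one {v : Word} (h : Star (one :: v)) : v = [] := by
  obtain ⟨j, hj⟩ := h
  cases j with
  | zero => simpa using hj
  | succ j => simp [List.replicate_succ] at hj

lemma star_fix {x : Word} (h : Star x) : sw x = x := by
  obtain ⟨j, rfl⟩ := h
  induction j with
  | zero => rfl
  | succ j ih =>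
    rw [List.replicate_succ, List.cons_append, sw_two_cons (by simp), ih]

lemma key {x y z : Word} (hy : y ∈ covers x) (hz : z ∈ covers x) (h : d y = d z) :
    y = z ∨ (Star x ∧ z = sw y) := by
  induction x generalizing y z with
  | nil => simp [covers] at hy hz; left; rw [hy, hz]
  | cons a v ih =>
    cases a with
    | one =>
      simp only [covers, List.mem_cons, List.not_mem_nil, or_false] at hy hz
      have aux : d v = 1 → v = [] := by
        intro hd
        by_contra hcon
        have := d_two_le hcon
        omega
      rcases hy with rfl | rfl <;> rcases hz with rfl | rfl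
      · left; rfl
      · right
        rw [d_one, d_two] at h
        have := aux (by omega)
        subst this
        exact ⟨⟨0, rfl⟩, rfl⟩
      · right
        rw [d_one, d_two] at h
        have := aux (by omega)
        subst this
        exact ⟨⟨0, rfl⟩, rfl⟩
      · left; rfl
    | two =>
      simp only [covers, List.mem_cons, List.mem_map] at hy hz
      rcases hy with rfl | ⟨y', hy', rfl⟩ <;> rcases hz with rfl | ⟨z', hz', rfl⟩
      · left; rfl
      · rw [d_one, d_two] at h
        have := d_two_le (covers_ne hz')
        omega
      · rw [d_one, d_two] at h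
        have := d_two_le (covers_ne hy')
        omega
      · rw [d_two, d_two] at h
        rcases ih hy' hz' (by omega) with rfl | ⟨hs, rfl⟩
        · left; rfl
        · right
          exact ⟨star_cons hs, (sw_two_cons (covers_ne hy')).symm⟩

lemma fix_cov {x y : Word} (h : sw x = x) (hs : ¬ Star x) (hy : y ∈ covers x) : sw y = y := by
  induction x generalizing y with
  | nil => simp [covers] at hy; subst hy; rfl
  | cons a v ih =>
    by_cases hv : v = []
    · subst hv
      cases a with
      | one => exact absurd ⟨0, rfl⟩ hs
      | two => simp [sw] at h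
    by_cases h1 : a :: v = [one, one]
    · rw [h1] at h; simp [sw] at h
    rw [sw_cons hv h1] at h
    have hfv : sw v = v := by simpa using h
    cases a with
    | one =>
      simp only [covers, List.mem_cons, List.not_mem_nil, or_false] at hy
      rcases hy with rfl | rfl
      · rw [sw_cons (by simp) (by simp [hv]), sw_cons hv h1, hfv]
      · rw [sw_two_cons hv, hfv]
    | two =>
      simp only [covers, List.mem_cons, List.mem_map] at hy
      rcases hy with rfl | ⟨y', hy', rfl⟩
      · rw [sw_cons (by simp) (by simp), sw_two_cons hv, hfv]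
      · rw [sw_two_cons (covers_ne hy'), ih hfv (fun h2 => hs (star_cons h2)) hy']

lemma nonfix_pair {x y z : Word} (hs : Star x) (hy : y ∈ covers x) (hz : z ∈ covers x)
    (hy1 : sw y ≠ y) (hz1 : sw z ≠ z) : z = y ∨ z = sw y := by
  induction x generalizing y z with
  | nil => exact absurd rfl (star_ne hs)
  | cons a v ih =>
    cases a with
    | one =>
      have := star_one hs
      subst this
      simp only [covers, List.mem_cons, List.not_mem_nil, or_false] at hy hz
      rcases hy with rfl | rfl <;> rcases hz with rfl | rfl
      · left; rfl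
      · right; rfl
      · right; rfl
      · left; rfl
    | two =>
      have hsv := star_two hs
      have hv := star_ne hsv
      have aux : sw (one :: two :: v) = one :: two :: v := by
        rw [sw_cons (by simp) (by simp), sw_two_cons hv, star_fix hsv]
      simp only [covers, List.mem_cons, List.mem_map] at hy hz
      rcases hy with rfl | ⟨y', hy', rfl⟩
      · exact absurd aux hy1
      rcases hz with rfl | ⟨z', hz', rfl⟩
      · exact absurd aux hz1
      rw [sw_two_cons (covers_ne hy')] at hy1 ⊢
      rw [sw_two_cons (covers_ne hz')] at hz1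
      rcases ih hsv hy' hz' (fun h => hy1 (by rw [h])) (fun h => hz1 (by rw [h])) with rfl | rfl
      · left; rfl
      · right; rfl

lemma exists_pair {x : Word} (hs : Star x) : ∃ y ∈ covers x, sw y ≠ y := by
  induction x with
  | nil => exact absurd rfl (star_ne hs)
  | cons a v ih =>
    cases a with
    | one =>
      have := star_one hs
      subst this
      exact ⟨[two], by simp [covers], by simp [sw]⟩
    | two =>
      obtain ⟨y, hy, hne⟩ := ih (star_two hs)
      refine ⟨two :: y, by simp [covers, hy], ?_⟩
      rw [sw_two_cons (covers_ne hy)]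
      intro h
      exact hne (by simpa using h)

/-! ### The action on chains -/

/-- apply `sw` depending on a bit -/
def app (b : Bool) (x : Word) : Word := if b then sw x else x

lemma app_true (x : Word) : app true x = sw x := rfl
lemma app_false (x : Word) : app false x = x := rfl

lemma app_app (b c : Bool) (x : Word) : app b (app c x) = app (xor c b) x := by
  cases b <;> cases c <;> simp [app, sw_sw]

lemma app_self (b : Bool) (x : Word) : app b (app b x) = x := by
  rw [app_app]; simp [app]

lemma app_fix {b : Bool} {x : Word} (h : sw x = x) : app b x = x := by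
  cases b
  · rfl
  · exact h

lemma app_cov {b : Bool} {x y : Word} (h : Cov x y) : Cov (app b x) (app b y) := by
  cases b
  · exact h
  · rw [cov_iff] at *; exact sw_mem h

lemma app_nonfix {b : Bool} {x : Word} (h : sw x ≠ x) : sw (app b x) ≠ app b x := by
  cases b
  · exact h
  · rw [app_true, sw_sw]; exact h.symm

lemma d_app (b : Bool) (x : Word) : d (app b x) = d x := by
  cases b
  · rfl
  · exact d_sw x

lemma act_cons (E : Set (List Word)) (y : Word) (p : List Word) :
    act E (y :: p) = app (S E (y :: p)) y :: act E p := rfl

lemma act_tail (E : Set (List Word)) (l : List Word) : (act E l).tail = act E l.tail := by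
  cases l <;> rfl

lemma S_cons (E : Set (List Word)) (y z : Word) (p : List Word) : S E (y :: p) = S E (z :: p) := by
  cases p <;> rfl

open Classical in
lemma S_fix (E : Set (List Word)) (y : Word) {x : Word} (p : List Word) (h : sw x = x) :
    (S E (y :: x :: p) = true ↔ (x :: p) ∈ E) := by
  rw [S, if_pos h, decide_eq_true_iff]

lemma S_nonfix (E : Set (List Word)) (y : Word) {x : Word} (p : List Word) (h : sw x ≠ x) :
    S E (y :: x :: p) = S E (x :: p) := by
  rw [S, if_neg h]

lemma act_cov (E : Set (List Word)) {x y : Word} {p : List Word} (h : Cov x y) :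
    Cov (app (S E (x :: p)) x) (app (S E (y :: x :: p)) y) := by
  by_cases hx : sw x = x
  · rw [app_fix hx]
    have := app_cov (b := S E (y :: x :: p)) h
    rwa [app_fix hx] at this
  · rw [S_nonfix E y p hx]
    exact app_cov h

lemma act_path (E : Set (List Word)) {l : List Word} (h : IsPath l) : IsPath (act E l) := by
  induction h with
  | root => exact IsPath.root
  | step _ hc ih =>
    rw [act_cons, act_cons]
    rw [act_cons] at ih
    exact IsPath.step ih (act_cov E hc)

lemma act_inj (E : Set (List Word)) {p q : List Word} (h : act E p = act E q) : p = q := by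
  induction p generalizing q with
  | nil => cases q with
    | nil => rfl
    | cons z q => rw [act_cons] at h; simp [act] at h
  | cons y p ih => cases q with
    | nil => rw [act_cons] at h; simp [act] at h
    | cons z q =>
      rw [act_cons, act_cons] at h
      simp only [List.cons.injEq] at h
      have := ih h.2
      subst this
      rw [S_cons E z y] at h
      have h2 := congrArg (app (S E (y :: p))) h.1
      rw [app_self, app_self] at h2
      rw [h2]

lemma act_surj (E : Set (List Word)) {q : List Word} (h : IsPath q) :
    ∃ p, IsPath p ∧ act E p = q := by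
  induction h with
  | root => exact ⟨_, IsPath.root, rfl⟩
  | @step x' z q' _ hc ih =>
    obtain ⟨p, hp, hpq⟩ := ih
    cases p with
    | nil => simp [act] at hpq
    | cons x p =>
      rw [act_cons] at hpq
      simp only [List.cons.injEq] at hpq
      obtain ⟨h1, h2⟩ := hpq
      refine ⟨app (S E (z :: x :: p)) z :: x :: p, IsPath.step hp ?_, ?_⟩
      · by_cases hx : sw x = x
        · rw [app_fix hx] at h1
          subst h1
          have := app_cov (b := S E (z :: x :: p)) hc
          rwa [app_fix hx] at this
        · rw [S_nonfix E z p hx]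
          have := app_cov (b := S E (x :: p)) hc
          rw [← h1, app_self] at this
          exact this
      · rw [act_cons, S_cons E _ z, app_self, act_cons, h1, h2]

/-- the automorphism with parameter `E` -/
noncomputable def actIso (E : Set (List Word)) : T ≃g T where
  toEquiv := Equiv.ofBijective (fun p : Path => (⟨act E p.1, act_path E p.2⟩ : Path)) ⟨by
    intro p q h
    apply Subtype.ext
    exact act_inj E (congrArg Subtype.val h), by
    intro q
    obtain ⟨p, hp, hpq⟩ := act_surj E q.2
    exact ⟨⟨p, hp⟩, Subtype.ext hpq⟩⟩
  map_rel_iff' := by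
    intro p q
    show (act E p.1 = (act E q.1).tail ∨ act E q.1 = (act E p.1).tail) ↔
      (p.1 = q.1.tail ∨ q.1 = p.1.tail)
    rw [act_tail, act_tail]
    constructor
    · rintro (h | h)
      · exact Or.inl (act_inj E h)
      · exact Or.inr (act_inj E h)
    · rintro (h | h)
      · left; rw [h]
      · right; rw [h]

/-! ### All automorphisms -/

lemma path_ne {l : List Word} (h : IsPath l) : l ≠ [] := by cases h <;> simp

lemma tail_path {y x : Word} {p : List Word} (h : IsPath (y :: x :: p)) : IsPath (x :: p) := by
  cases h with
  | step h _ => exact h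

lemma cov_path {y x : Word} {p : List Word} (h : IsPath (y :: x :: p)) : Cov x y := by
  cases h with
  | step _ h => exact h

lemma single_path {x : Word} (h : IsPath [x]) : x = [] := by
  cases h; rfl

/-- the root -/
def root : Path := ⟨[[]], IsPath.root⟩

lemma cov_one (x : Word) : Cov x (one :: x) := Or.inl ⟨0, x, rfl, rfl⟩

lemma adj_root {r : Path} (h : T.Adj root r) : r.1 = [[one], []] := by
  rcases h with h | h
  · obtain ⟨l, hl⟩ := r
    cases hl with
    | root => simp [root] at h
    | @step x y p hp hc =>
      simp only [root, List.tail_cons] at h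
      have h1 : x = [] ∧ p = [] := by simpa using h.symm
      obtain ⟨rfl, rfl⟩ := h1
      have hc' : y = [one] := by
        rw [cov_iff] at hc
        simpa [covers] using hc
      subst hc'
      rfl
  · exact absurd h (path_ne r.2)

lemma map_root (φ : T ≃g T) : φ root = root := by
  by_contra hne
  rcases hq : φ root with ⟨l, hl⟩
  cases hl with
  | root => exact hne (by rw [hq]; rfl)
  | @step x y p hp hc =>
    have ha : T.Adj (φ root) ⟨x :: p, hp⟩ := by rw [hq]; right; rfl
    have hb : T.Adj (φ root) ⟨(one :: y) :: y :: x :: p, IsPath.step (IsPath.step hp hc) (cov_one y)⟩ := by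
      rw [hq]; left; rfl
    have ha' : T.Adj root (φ.symm ⟨x :: p, hp⟩) := by
      have := φ.symm.map_rel_iff.mpr ha
      simpa using this
    have hb' : T.Adj root (φ.symm ⟨(one :: y) :: y :: x :: p,
        IsPath.step (IsPath.step hp hc) (cov_one y)⟩) := by
      have := φ.symm.map_rel_iff.mpr hb
      simpa using this
    have h1 := adj_root ha'
    have h2 := adj_root hb'
    have h3 := φ.symm.injective (Subtype.ext (h1.trans h2.symm))
    have h4 := congrArg (fun q : Path => q.1.length) h3
    simp at h4

lemma map_parent (φ : T ≃g T) : ∀ (p : List Word) (x y : Word) (h : IsPath (y :: x :: p)),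
    (φ ⟨y :: x :: p, h⟩).1.tail = (φ ⟨x :: p, tail_path h⟩).1 := by
  intro p
  induction p with
  | nil =>
    intro x y h
    have hx : x = [] := single_path (tail_path h)
    subst hx
    have hadj : T.Adj (φ ⟨[y, []], h⟩) (φ ⟨[[]], tail_path h⟩) :=
      φ.map_rel_iff.mpr (Or.inr rfl)
    rcases hadj with h1 | h1
    · exfalso
      have h2 : φ ⟨[[]], tail_path h⟩ = root := map_root φ
      rw [h2] at h1
      exact path_ne (φ ⟨[y, []], h⟩).2 h1
    · exact h1.symm
  | cons x' p ih =>
    intro x y h
    have hadj : T.Adj (φ ⟨y :: x :: x' :: p, h⟩) (φ ⟨x :: x' :: p, tail_path h⟩) :=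
      φ.map_rel_iff.mpr (Or.inr rfl)
    rcases hadj with h1 | h1
    · exfalso
      rw [ih x' x (tail_path h)] at h1
      have h2 := φ.injective (Subtype.ext h1)
      have h3 := congrArg (fun q : Path => q.1.length) h2
      simp only [List.length_cons] at h3
      omega
    · exact h1.symm

lemma map_child (φ : T ≃g T) {p : List Word} {x y : Word} (h : IsPath (y :: x :: p)) :
    ∃ z, (φ ⟨y :: x :: p, h⟩).1 = z :: (φ ⟨x :: p, tail_path h⟩).1 ∧
      Cov ((φ ⟨x :: p, tail_path h⟩).1.headD []) z := by
  have h1 := map_parent φ p x y h
  rcases hq : φ ⟨y :: x :: p, h⟩ with ⟨l, hl⟩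
  rw [hq] at h1
  simp only at h1
  cases hl with
  | root =>
    exfalso
    exact path_ne (φ ⟨x :: p, tail_path h⟩).2 h1.symm
  | @step x' z q hq' hc =>
    refine ⟨z, ?_, ?_⟩
    · rw [← h1]; rfl
    · rw [← h1]; exact hc

lemma deg_le (φ : T ≃g T) {x : Word} {p : List Word} (h : IsPath (x :: p)) :
    d x ≤ d ((φ ⟨x :: p, h⟩).1.headD []) := by
  have h1 : ((covers x).attach.map (fun y =>
      (φ ⟨y.1 :: x :: p, IsPath.step h ((cov_iff _ _).mpr y.2)⟩).1.headD [])).Nodup := by
    apply List.Nodup.map_on _ (List.nodup_attach.mpr (covers_nodup x))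
    intro y _ z _ hyz
    obtain ⟨u, hu1, _⟩ := map_child φ (IsPath.step h ((cov_iff _ _).mpr y.2))
    obtain ⟨v, hv1, _⟩ := map_child φ (IsPath.step h ((cov_iff _ _).mpr z.2))
    rw [hu1, hv1] at hyz
    simp only [List.headD_cons] at hyz
    have : (φ ⟨y.1 :: x :: p, IsPath.step h ((cov_iff _ _).mpr y.2)⟩).1 =
        (φ ⟨z.1 :: x :: p, IsPath.step h ((cov_iff _ _).mpr z.2)⟩).1 := by
      rw [hu1, hv1, hyz]
    have h2 := φ.injective (Subtype.ext this)
    have h3 := congrArg (fun q : Path => q.1.headD []) h2
    simp only [List.headD_cons] at h3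
    exact Subtype.ext h3
  have h2 : ((covers x).attach.map (fun y =>
      (φ ⟨y.1 :: x :: p, IsPath.step h ((cov_iff _ _).mpr y.2)⟩).1.headD [])) ⊆
        covers ((φ ⟨x :: p, h⟩).1.headD []) := by
    intro z hz
    rw [List.mem_map] at hz
    obtain ⟨y, _, rfl⟩ := hz
    obtain ⟨u, hu1, hu2⟩ := map_child φ (IsPath.step h ((cov_iff _ _).mpr y.2))
    rw [hu1]
    exact (cov_iff _ _).mp hu2
  have h3 := (List.subperm_of_subset h1 h2).length_le
  simpa [d] using h3

lemma deg_eq (φ : T ≃g T) {x : Word} {p : List Word} (h : IsPath (x :: p)) :
    d ((φ ⟨x :: p, h⟩).1.headD []) = d x := by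
  apply le_antisymm _ (deg_le φ h)
  rcases hq : φ ⟨x :: p, h⟩ with ⟨l, hl⟩
  cases l with
  | nil => exact absurd rfl (path_ne hl)
  | cons x' p' =>
    have h1 := deg_le φ.symm hl
    have h2 : φ.symm ⟨x' :: p', hl⟩ = ⟨x :: p, h⟩ := by rw [← hq]; simp
    rw [h2] at h1
    exact h1

/-- the parameter of an automorphism -/
def param (φ : T ≃g T) : Set (List Word) :=
  {l | l ∈ V ∧ ∃ (y : Word) (h : IsPath (y :: l)), (φ ⟨y :: l, h⟩).1.headD [] ≠ y}

lemma eq_act (φ : T ≃g T) {l : List Word} (h : IsPath l) : (φ ⟨l, h⟩).1 = act (param φ) l := by
  induction h with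
  | root => exact congrArg Subtype.val (map_root φ)
  | @step x y p hp hc ih =>
    set E := param φ with hE
    -- images of children
    have gen : ∀ (y : Word) (hc : Cov x y), ∃ z, (φ ⟨y :: x :: p, IsPath.step hp hc⟩).1 =
        z :: act E (x :: p) ∧ Cov (app (S E (x :: p)) x) z ∧ d z = d y := by
      intro y hc
      obtain ⟨z, hz1, hz2⟩ := map_child φ (IsPath.step hp hc)
      have hih : (φ ⟨x :: p, tail_path (IsPath.step hp hc)⟩).1 = act E (x :: p) := ih
      rw [hih] at hz1 hz2
      refine ⟨z, hz1, ?_, ?_⟩
      · rw [act_cons] at hz2; exact hz2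
      · have := deg_eq φ (IsPath.step hp hc)
        rw [hz1] at this
        exact this
    obtain ⟨z, hz1, hz2, hz3⟩ := gen y hc
    suffices hh : z = app (S E (y :: x :: p)) y by
      rw [hz1, act_cons E y, ← hh]
    by_cases hx : sw x = x
    · have hfix : ∀ b, app b x = x := fun b => app_fix hx
      rw [hfix] at hz2
      have gen2 : ∀ (y : Word) (hc : Cov x y), ∃ z, (φ ⟨y :: x :: p, IsPath.step hp hc⟩).1 =
          z :: act E (x :: p) ∧ Cov x z ∧ (y = z ∨ (Star x ∧ z = sw y)) := by
        intro y hc
        obtain ⟨z, h1, h2, h3⟩ := gen y hc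
        rw [hfix] at h2
        exact ⟨z, h1, h2, key ((cov_iff _ _).mp hc) ((cov_iff _ _).mp h2) h3.symm⟩
      have hk := key ((cov_iff _ _).mp hc) ((cov_iff _ _).mp hz2) hz3.symm
      by_cases hs : Star x
      · by_cases hy : sw y = y
        · rw [app_fix hy]
          rcases hk with h1 | ⟨_, h1⟩
          · exact h1.symm
          · rw [h1, hy]
        · by_cases hmem : (x :: p) ∈ E
          · have hS : S E (y :: x :: p) = true := (S_fix E y p hx).mpr hmem
            rw [hS, app_true]
            obtain ⟨_, y0, hy0, hne⟩ := hmem
            have hc0 := cov_path hy0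
            obtain ⟨z0, h01, h02, h03⟩ := gen2 y0 hc0
            have h04 : (φ ⟨y0 :: x :: p, hy0⟩).1 = z0 :: act E (x :: p) := h01
            rw [h04, List.headD_cons] at hne
            have hz0 : z0 = sw y0 := by
              rcases h03 with h | ⟨_, h⟩
              · exact absurd h.symm hne
              · exact h
            have hy0n : sw y0 ≠ y0 := by rw [← hz0]; exact hne
            rcases nonfix_pair hs ((cov_iff _ _).mp hc0) ((cov_iff _ _).mp hc) hy0n hy with
              h | h
            · subst h
              have := h01.symm.trans hz1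
              simp only [List.cons.injEq, and_true] at this
              rw [← this, hz0]
            · rcases hk with h1 | ⟨_, h1⟩
              · exfalso
                have h2 : (φ ⟨y :: x :: p, IsPath.step hp hc⟩).1 =
                    (φ ⟨y0 :: x :: p, IsPath.step hp hc0⟩).1 := by
                  rw [hz1, h01, hz0, ← h1, h]
                have h3 := φ.injective (Subtype.ext h2)
                have h4 := congrArg (fun q : Path => q.1.headD []) h3
                simp only [List.headD_cons] at h4
                exact hy0n (by rw [← h, h4])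
              · exact h1
          · have hS : S E (y :: x :: p) = false := by
              rw [← Bool.not_eq_true, S_fix E y p hx]; exact hmem
            rw [hS, app_false]
            by_contra hne
            apply hmem
            refine ⟨⟨hp, x, p, rfl, hs⟩, y, IsPath.step hp hc, ?_⟩
            rw [hz1]; exact hne
      · rw [app_fix (fix_cov hx hs ((cov_iff _ _).mp hc))]
        rcases hk with h1 | ⟨h1, _⟩
        · exact h1.symm
        · exact absurd h1 hs
    · rw [S_nonfix E y p hx]
      have h1 := app_cov (b := S E (x :: p)) hz2
      rw [app_self] at h1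
      rcases key ((cov_iff _ _).mp hc) ((cov_iff _ _).mp h1) (by rw [d_app, hz3]) with h | ⟨h, _⟩
      · rw [h, app_self]
      · exact absurd (star_fix h) hx

lemma param_sub (φ : T ≃g T) : param φ ⊆ V := fun _ h => h.1

lemma unique_param {E E' : Set (List Word)} (hE : E ⊆ V) (hE' : E' ⊆ V)
    (h : ∀ p : Path, act E p.1 = act E' p.1) : E = E' := by
  ext l
  by_cases hl : l ∈ V
  · obtain ⟨hp, x, q, rfl, hs⟩ := hl
    obtain ⟨y, hy, hne⟩ := exists_pair hs
    have h1 := h ⟨y :: x :: q, IsPath.step hp ((cov_iff _ _).mpr hy)⟩
    simp only [act_cons, List.cons.injEq] at h1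
    have h2 := h1.1
    have hx := star_fix hs
    constructor
    · intro hm
      rw [(S_fix E y q hx).mpr hm] at h2
      by_contra hcon
      have : S E' (y :: x :: q) = false := by
        rw [← Bool.not_eq_true, S_fix E' y q hx]; exact hcon
      rw [this] at h2
      exact hne h2
    · intro hm
      rw [(S_fix E' y q hx).mpr hm] at h2
      by_contra hcon
      have : S E (y :: x :: q) = false := by
        rw [← Bool.not_eq_true, S_fix E y q hx]; exact hcon
      rw [this] at h2
      exact hne h2.symm
  · exact ⟨fun hm => absurd (hE hm) hl, fun hm => absurd (hE' hm) hl⟩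

/-- composition of parameters -/
def comp (E E' : Set (List Word)) : Set (List Word) :=
  {l | l ∈ V ∧ Xor (l ∈ E') (act E' l ∈ E)}

lemma S_comp {E E' : Set (List Word)} (hE : E ⊆ V) (hE' : E' ⊆ V) {l : List Word}
    (h : IsPath l) : S (comp E E') l = xor (S E' l) (S E (act E' l)) := by
  induction h with
  | root => rfl
  | @step x y p hp hc ih =>
    have e1 : act E' (y :: x :: p) =
        app (S E' (y :: x :: p)) y :: app (S E' (x :: p)) x :: act E' p := by
      rw [act_cons, act_cons]
    by_cases hx : sw x = x
    · rw [e1, app_fix (b := S E' (x :: p)) hx]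
      have e2 : act E' (x :: p) = x :: act E' p := by rw [act_cons, app_fix hx]
      have h1 := S_fix (comp E E') y p hx
      have h2 := S_fix E' y p hx
      have h3 := S_fix E (app (S E' (y :: x :: p)) y) (act E' p) hx
      have h4 : (x :: p) ∈ comp E E' ↔ Xor ((x :: p) ∈ E') ((x :: act E' p) ∈ E) := by
        unfold comp
        rw [Set.mem_ofPred_eq, e2]
        constructor
        · exact fun h => h.2
        · intro h
          refine ⟨?_, h⟩
          rcases h with h | h
          · exact hE' h.1
          · obtain ⟨_, x', q', he, hs⟩ := hE h.1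
            simp only [List.cons.injEq] at he
            exact ⟨hp, x, p, rfl, he.1 ▸ hs⟩
      rw [h4, ← h2, ← h3] at h1
      cases hA : S (comp E E') (y :: x :: p) <;> cases hB : S E' (y :: x :: p) <;>
        cases hC : S E (app (S E' (y :: x :: p)) y :: x :: act E' p) <;>
        simp_all [Xor]
    · rw [S_nonfix _ y p hx, S_nonfix E' y p hx, ih, e1, S_nonfix E _ _ (app_nonfix hx), act_cons]

lemma act_comp {E E' : Set (List Word)} (hE : E ⊆ V) (hE' : E' ⊆ V) {l : List Word}
    (h : IsPath l) : act E (act E' l) = act (comp E E') l := by
  induction h with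
  | root => rfl
  | @step x y p hp hc ih =>
    have h1 := S_comp hE hE' (IsPath.step hp hc)
    have e1 : act E' (y :: x :: p) = app (S E' (y :: x :: p)) y :: act E' (x :: p) :=
      act_cons _ _ _
    rw [act_cons (comp E E'), ← ih, h1, e1, act_cons E, app_app, ← e1]

/-- Description of `Aut(T)`. For every set `E` of chains whose top element is a word `2^j 1`, the
explicit map `act E` is an automorphism of `T`; every automorphism is `act E` for exactly one such
`E`; and the composition law is as displayed. -/
theorem result :
    (∀ E : Set (List Word), E ⊆ V → ∃ φ : T ≃g T, ∀ p : Path, (φ p).1 = act E p.1) ∧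
    (∀ φ : T ≃g T, ∃! E : Set (List Word), E ⊆ V ∧ ∀ p : Path, (φ p).1 = act E p.1) ∧
    (∀ E E' : Set (List Word), E ⊆ V → E' ⊆ V → ∀ p : Path,
      act E (act E' p.1) = act {l | l ∈ V ∧ Xor (l ∈ E') (act E' l ∈ E)} p.1) := by
  refine ⟨fun E _ => ⟨actIso E, fun p => rfl⟩, fun φ => ?_, fun E E' hE hE' p => ?_⟩
  · refine ⟨param φ, ⟨param_sub φ, fun p => eq_act φ p.2⟩, ?_⟩
    rintro E ⟨hE, h⟩
    apply unique_param hE (param_sub φ)
    intro p
    rw [← h p, eq_act φ p.2]
  · exact act_comp hE hE' p.2

end Pool.Agent.Results.MP_ac28de_co.AutTree
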